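import Pool.Agent.TH188.MG.Main

/-!
# An affine line in the coarse moduli space of curves of genus `g`, for every `g ≥ 2`

The definitions used by the statement are in `Pool.Agent.TH188.MG.Defs`. The morphism is the one
induced by the family of hyperelliptic curves `y² = x ^ (2g+1) + α a x + β b` over the affine curve
`a ^ (2g+1) + b ^ (2g) = 1`, with constants `α, β` chosen so that the discriminant is constant.
The family is invariant, up to isomorphism, under the cyclic group `a ↦ ζ a`, `ζ ^ (2g+1) = 1`,
whose quotient is the affine line with coordinate `b`.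
-/

set_option autoImplicit false

open Polynomial CategoryTheory AlgebraicGeometry Pool.Agent.TH188.MG

namespace Pool.Agent.Results.MP_2eb777_ag.AffineLine

/-- For every `g ≥ 2`, the coarse moduli space of smooth projective curves of genus `g` over `ℂ`
receives a non-constant morphism from the affine line. -/
theorem result (g : ℕ) (hg : 2 ≤ g) {M : Scheme.{0}} (s : M ⟶ Spec (CommRingCat.of ℂ))
    (Φ : ModuliMap g s) (hM : IsCoarseModuliSpace g s Φ) :
    ∃ f : Spec (CommRingCat.of ℂ[X]) ⟶ M,
      f ≫ s = Spec.map (CommRingCat.ofHom (C : ℂ →+* ℂ[X])) ∧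
      ∃ x y : Spec (CommRingCat.of ℂ[X]), f x ≠ f y :=
  main g hg s Φ hM

end Pool.Agent.Results.MP_2eb777_ag.AffineLine
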